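import Mathlib

/-! # A square root of `(1 + x^{(q+1)/2} - (x-1)^{(q+1)/2})/2` in characteristic `p`

For `q = p^f = 4 n + 1` the polynomial `A = T_n(2X-1)` (Chebyshev) satisfies
`2 A^2 = 1 + X^{2n+1} - (X-1)^{2n+1}`. -/

namespace H37RM

open Polynomial

theorem exists_cheb (F : Type*) [Field F] (p : ℕ) [Fact p.Prime] [CharP F p]
    (h2 : (2 : F) ≠ 0) (n f : ℕ) (hq : p ^ f = 4 * n + 1) :
    ∃ A : Polynomial F,
      2 * A ^ 2 = 1 + X * X ^ (2 * n) - (X - 1) * (X - 1) ^ (2 * n) := by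
  classical
  let L := AlgebraicClosure (FractionRing (Polynomial F))
  let φ : Polynomial F →+* L :=
    (algebraMap (FractionRing (Polynomial F)) L).comp
      (algebraMap (Polynomial F) (FractionRing (Polynomial F)))
  have hφ : Function.Injective φ :=
    (algebraMap (FractionRing (Polynomial F)) L).injective.comp
      (IsFractionRing.injective (Polynomial F) (FractionRing (Polynomial F)))
  have : CharP L p := charP_of_injective_ringHom
    (f := φ.comp (Polynomial.C)) (hφ.comp Polynomial.C_injective) p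
  have h2L : (2 : L) ≠ 0 := by
    intro h
    apply h2
    have : (φ.comp (Polynomial.C)) (2 : F) = (φ.comp (Polynomial.C)) 0 := by
      rw [map_ofNat, map_zero]; exact h
    exact (hφ.comp Polynomial.C_injective) this
  refine ⟨(Chebyshev.T F n).comp (2 * X - 1), ?_⟩
  obtain ⟨r0, hr0⟩ := IsAlgClosed.exists_pow_nat_eq (φ X) (n := 2) (by norm_num)
  obtain ⟨r1, hr1⟩ := IsAlgClosed.exists_pow_nat_eq (φ X - 1) (n := 2) (by norm_num)
  have hrr : (r0 + r1) * (r0 - r1) = 1 := by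
    linear_combination hr0 - hr1
  have hy : 2 * (2 * φ X - 1) = (r0 + r1) ^ 2 + (r0 - r1) ^ 2 := by
    linear_combination (-2) * hr0 - 2 * hr1
  have hT : ∀ m : ℕ, 2 * φ ((Chebyshev.T F m).comp (2 * X - 1)) =
      (r0 + r1) ^ (2 * m) + (r0 - r1) ^ (2 * m) ∧
      2 * φ ((Chebyshev.T F (m + 1 : ℤ)).comp (2 * X - 1)) =
      (r0 + r1) ^ (2 * (m + 1)) + (r0 - r1) ^ (2 * (m + 1)) := by
    intro m
    induction m with
    | zero =>
      constructor
      · simp
        norm_num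
      · simp only [Nat.cast_zero, zero_add, Chebyshev.T_one, X_comp, map_sub, map_mul, map_ofNat,
          map_one, mul_one]
        exact hy
    | succ m ih =>
      obtain ⟨ih1, ih2⟩ := ih
      constructor
      · push_cast
        exact ih2
      · have e : ((m + 1 : ℕ) : ℤ) + 1 = (m : ℤ) + 2 := by push_cast; ring
        rw [e, Chebyshev.T_add_two]
        simp only [sub_comp, mul_comp, X_comp, map_sub, map_mul, map_ofNat, map_one,
          ofNat_comp, Nat.cast_ofNat] at *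
        have hrr1 : (r0 + r1) ^ 2 * (r0 - r1) ^ 2 = 1 := by
          rw [← mul_pow, hrr, one_pow]
        have e1 : (r0 + r1) ^ (2 * (m + 1 + 1)) =
            (r0 + r1) ^ (2 * (m + 1)) * (r0 + r1) ^ 2 := by ring
        have e2 : (r0 - r1) ^ (2 * (m + 1 + 1)) =
            (r0 - r1) ^ (2 * (m + 1)) * (r0 - r1) ^ 2 := by ring
        have e3 : (r0 + r1) ^ (2 * (m + 1)) = (r0 + r1) ^ (2 * m) * (r0 + r1) ^ 2 := by ring
        have e4 : (r0 - r1) ^ (2 * (m + 1)) = (r0 - r1) ^ (2 * m) * (r0 - r1) ^ 2 := by ring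
        rw [e1, e2]
        rw [e3, e4] at ih2 ⊢
        linear_combination (2 * (2 * φ X - 1)) * ih2 - ih1 +
          ((r0 + r1) ^ (2 * m) * (r0 + r1) ^ 2 + (r0 - r1) ^ (2 * m) * (r0 - r1) ^ 2) * hy +
          ((r0 + r1) ^ (2 * m) + (r0 - r1) ^ (2 * m)) * hrr1
  have hfrob : ∀ a b : L, (a + b) ^ (4 * n + 1) = a ^ (4 * n + 1) + b ^ (4 * n + 1) := by
    intro a b
    rw [← hq]
    exact add_pow_char_pow a b p f
  have h1 := (hT n).1
  have hp1 : (r0 + r1) ^ (4 * n) = (r0 ^ (4 * n + 1) + r1 ^ (4 * n + 1)) * (r0 - r1) := by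
    rw [← hfrob, pow_succ]
    linear_combination (-(r0 + r1) ^ (4 * n)) * hrr
  have hp2 : (r0 - r1) ^ (4 * n) = (r0 ^ (4 * n + 1) - r1 ^ (4 * n + 1)) * (r0 + r1) := by
    have h3 : (r0 - r1) ^ (4 * n + 1) = r0 ^ (4 * n + 1) - r1 ^ (4 * n + 1) := by
      have := hfrob r0 (-r1)
      rw [Odd.neg_pow ⟨2 * n, by ring⟩ r1] at this
      rw [sub_eq_add_neg, this]; ring
    rw [← h3, pow_succ]
    linear_combination (-(r0 - r1) ^ (4 * n)) * hrr
  have hx : r0 ^ (4 * n + 1) * r0 = φ X * φ X ^ (2 * n) := by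
    rw [← hr0]; ring
  have hx1 : r1 ^ (4 * n + 1) * r1 = (φ X - 1) * (φ X - 1) ^ (2 * n) := by
    rw [← hr1]; ring
  have hprod : (r0 + r1) ^ (2 * n) * (r0 - r1) ^ (2 * n) = 1 := by
    rw [← mul_pow, hrr, one_pow]
  have key : 4 * (φ ((Chebyshev.T F n).comp (2 * X - 1))) ^ 2 =
      2 * (1 + φ X * φ X ^ (2 * n) - (φ X - 1) * (φ X - 1) ^ (2 * n)) := by
    have e : 4 * (φ ((Chebyshev.T F n).comp (2 * X - 1))) ^ 2 =
        (2 * φ ((Chebyshev.T F n).comp (2 * X - 1))) ^ 2 := by ring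
    rw [e, h1]
    have e5 : ((r0 + r1) ^ (2 * n) + (r0 - r1) ^ (2 * n)) ^ 2 =
        (r0 + r1) ^ (4 * n) + (r0 - r1) ^ (4 * n) +
        2 * ((r0 + r1) ^ (2 * n) * (r0 - r1) ^ (2 * n)) := by ring
    rw [e5, hprod, hp1, hp2]
    linear_combination 2 * hx - 2 * hx1
  apply hφ
  have : (2 : L) * φ (2 * (Chebyshev.T F n).comp (2 * X - 1) ^ 2) =
      2 * φ (1 + X * X ^ (2 * n) - (X - 1) * (X - 1) ^ (2 * n)) := by
    simp only [map_mul, map_pow, map_ofNat, map_sub, map_add, map_one]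
    linear_combination key
  exact mul_left_cancel₀ h2L this

end H37RM
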